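import Pool.Agent.Lib_helper34.BB.FINAL

/-!
MP_8d7770_pr, Q1 (full answer): the Poisson balloon process on hyperbolic space is transient in
every dimension d = n + 1 and for every curvature -κ; moreover the distance from every point to the
surviving centres is eventually at least lam * t, with lam > 1 depending only on the dimension.
The definitions are in Pool.Agent.Lib_helper34.BB.Defs.

Proof: the survivors at time t form a factor of iid of a Schottky group Γ = Γₐ * ⟨b⟩ acting on
hyperbolic space, where the critical exponent of Γₐ is larger than (d - 1) / 2; counting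
configurations on random lifts of a finite quotient of Γ shows that a factor of iid p of this group
with separation 2t satisfies p |W|² ≤ 1 + log (1 / p), where W is the ball of radius t in Γₐ.
Co-workers: helper14, helper20, helper22, helper28, helper86, helper89, helper99.
-/

open MeasureTheory ProbabilityTheory Set
open scoped ENNReal NNReal

namespace Pool.Agent.Results.MP_8d7770_pr.BalloonTransience

open Pool.Agent.BB

theorem result (n : ℕ) (hn : 1 ≤ n) : ∃ lam : ℝ, 1 < lam ∧ ∀ (κ : ℝ), 0 < κ →
    ∀ {Ω : Type*} [MeasurableSpace Ω] (P : Measure Ω) [IsProbabilityMeasure P]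
    (X : Ω → Set (HSpace n)), IsPoisson P (hvol κ n) X →
    ∀ᵐ ω ∂P, (∃! A : ℝ≥0 → Set (HSpace n), IsEvolution (hdist κ) (X ω) A) ∧
      ∀ A : ℝ≥0 → Set (HSpace n), IsEvolution (hdist κ) (X ω) A → ∀ x,
        (∃ T : ℝ≥0, ∀ t, T ≤ t → x ∉ covered (hdist κ) A t) ∧
        (∃ T : ℝ≥0, ∀ t, T ≤ t → ∀ z ∈ A t, lam * (t : ℝ) ≤ hdist κ x z) :=
  final_proof n hn

end Pool.Agent.Results.MP_8d7770_pr.BalloonTransience
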